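import Pool.Agent.H66.L.S8.W564.SC.Defs

/-! SC-COMP: composition of convergent jets. -/

set_option autoImplicit false

open scoped Manifold ContDiff Topology
open Filter Set Metric

namespace Pool.Agent.W917.SC

open Pool.Agent.W564.SC

theorem comp : S_COMP := by
  intro E E' E'' _ _ _ _ _ _ k a y b y₀ a' b' h h'
  have hs : ∀ᶠ m in atTop, ContDiffAt ℝ k (a m) (y m) ∧ ContDiffAt ℝ k (a' m) (a m (y m)) :=
    h.smooth.and h'.smooth
  refine ⟨h.pt, ?_, h'.smooth₀.comp y₀ h.smooth₀, ?_⟩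
  · filter_upwards [hs] with m hm
    exact hm.2.comp (y m) hm.1
  · intro j hj
    have hjk : ((j : ℕ) : WithTop ℕ∞) ≤ (k : WithTop ℕ∞) := by exact_mod_cast hj
    have e0 : iteratedFDeriv ℝ j (b' ∘ b) y₀ =
        (ftaylorSeries ℝ b' (b y₀)).taylorComp (ftaylorSeries ℝ b y₀) j :=
      iteratedFDeriv_comp h'.smooth₀ h.smooth₀ hjk
    have e1 : ∀ᶠ m in atTop, (ftaylorSeries ℝ (a' m) (a m (y m))).taylorComp
        (ftaylorSeries ℝ (a m) (y m)) j = iteratedFDeriv ℝ j (a' m ∘ a m) (y m) := by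
      filter_upwards [hs] with m hm
      exact (iteratedFDeriv_comp hm.2 hm.1 hjk).symm
    rw [e0]
    refine Tendsto.congr' e1 ?_
    refine tendsto_finsetSum _ fun c _ => ?_
    have hB := (c.compAlongOrderedFinpartitionL ℝ E E' E'').continuous_uncurry_of_multilinear
    have h1 : Tendsto (fun m => (ftaylorSeries ℝ (a' m) (a m (y m)) c.length,
        fun i => ftaylorSeries ℝ (a m) (y m) (c.partSize i))) atTop
        (𝓝 (ftaylorSeries ℝ b' (b y₀) c.length, fun i => ftaylorSeries ℝ b y₀ (c.partSize i))) := by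
      refine Tendsto.prodMk_nhds (h'.conv _ (c.length_le.trans hj)) ?_
      refine tendsto_pi_nhds.2 fun i => ?_
      exact h.conv _ ((c.partSize_le i).trans hj)
    exact (hB.tendsto _).comp h1

end Pool.Agent.W917.SC
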